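import Pool.Agent.Run7.h274.BoxFin

set_option autoImplicit false

/-!
# Unrestricted box averages with random delays

Averages over arbitrary wide families of finite index sets (for instance unrestricted boxes) of
products of functions along arbitrary (not necessarily commuting) measure preserving maps, with
independent random delays.
-/

namespace Pool.Agent.Results.MP_f720ae_an.DelayedBoxes

open Filter Topology MeasureTheory ProbabilityTheory Finset
open Pool.Agent.Run7.h274.Del (Wide box)

universe u v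

/-- real functions in `L^∞` -/
def EssBdd {X : Type u} [MeasurableSpace X] (μ : Measure X) (f : X → ℝ) : Prop :=
  AEStronglyMeasurable f μ ∧ ∃ C : ℝ, ∀ᵐ x ∂μ, |f x| ≤ C

/-- weights: arbitrary measurable functions bounded by one -/
def Weights {X : Type u} [MeasurableSpace X] (μ : Measure X) {ι : Type} (c : ι → X → ℝ) : Prop :=
  ∀ n, AEStronglyMeasurable (c n) μ ∧ ∀ᵐ x ∂μ, |c n x| ≤ 1

/-- conditional expectation on the sets invariant under `T` -/
noncomputable def inv {X : Type u} [MeasurableSpace X] (μ : Measure X) (T : X → X) (f : X → ℝ) :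
    X → ℝ := μ[f | MeasurableSpace.invariants T]

/-- delays: the random vectors `ξ n` are independent, and `ξ n` is uniform in the box of the `v`
with `0 ≤ v j < L j n` -/
structure Delays {Ω : Type v} [MeasurableSpace Ω] (P : Measure Ω) {ι : Type} {m : ℕ}
    (L : Fin m → ι → ℕ) (ξ : ι → Ω → Fin m → ℕ) : Prop where
  meas : ∀ n, Measurable (ξ n)
  indep : iIndepFun ξ P
  unif : ∀ n, ∀ v : Fin m → ℕ, (∀ j, v j < L j n) → P.real {ω | ξ n ω = v} = ∏ j, (L j n : ℝ)⁻¹

/-- the average over the finite set `S M` -/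
noncomputable def avg {ι J : Type} (S : J → Finset ι) (u : ι → ℝ) (M : J) : ℝ :=
  ((S M).card : ℝ)⁻¹ * ∑ n ∈ S M, u n

/-- Arbitrary families of measure preserving maps `g j n`, delayed by powers of measure preserving
maps `R j`; the windows depend only on the `R j` and `f j`. The averages are over the members of an
arbitrary wide family of finite sets, for instance the boxes `[0, M_1] × ⋯ × [0, M_k]`. -/
theorem result :
    (∀ (X : Type u) [MeasurableSpace X] (μ : Measure X) [IsProbabilityMeasure μ] (ι : Type)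
      [Countable ι] (m : ℕ) (R : Fin m → X → X) (f : Fin m → X → ℝ),
      (∀ j, MeasurePreserving (R j) μ μ) → (∀ j, EssBdd μ (f j)) →
      ∃ l : ι → ℕ, ∀ (g : Fin m → ι → X → X) (L : Fin m → ι → ℕ),
        (∀ j n, MeasurePreserving (g j n) μ μ) → (∀ j n, l n ≤ L j n) →
        ∀ (J : Type) [Countable J] (S : J → Finset ι), Wide S →
        ∀ (Ω : Type v) [MeasurableSpace Ω] (P : Measure Ω) [IsProbabilityMeasure P]
          (ξ : ι → Ω → Fin m → ℕ) (c : ι → X → ℝ), Delays P L ξ → Weights μ c →
          ∀ᵐ ω ∂P, ∀ᵐ x ∂μ,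
            Tendsto (avg S fun n => c n x * (∏ j, f j ((R j)^[ξ n ω j] (g j n x)) -
              ∏ j, inv μ (R j) (f j) (g j n x))) cofinite (𝓝 0) ∧
            ((∀ j, Ergodic (R j) μ) →
              Tendsto (avg S fun n => ∏ j, f j ((R j)^[ξ n ω j] (g j n x))) cofinite
                (𝓝 (∏ j, ∫ y, f j y ∂μ)))) ∧
    (∀ k : ℕ, Wide (box k)) := by
  have hone : ∀ (X : Type u) [MeasurableSpace X] (μ : Measure X) (ι : Type),
      Weights μ (fun (_ : ι) _ => (1:ℝ)) :=
    fun X _ μ ι n => ⟨aestronglyMeasurable_const, Eventually.of_forall fun x => by simp⟩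
  refine ⟨?_, Pool.Agent.Run7.h274.Del.wide_box⟩
  · intro X _ μ _ ι _ m R f hR hf
    obtain ⟨l, hl0, hl⟩ := Pool.Agent.Run7.h274.Del.finB3.{u, v} μ (ι := ι) m R hR f hf
    refine ⟨l, fun g L hg hL J _ S hS Ω _ P _ ξ c hξ hc => ?_⟩
    have h1 := hl g hg L hL J S hS Ω P ξ hξ.meas hξ.indep hξ.unif c hc
    have h2 := hl g hg L hL J S hS Ω P ξ hξ.meas hξ.indep hξ.unif (fun _ _ => (1:ℝ)) (hone X μ ι)
    have h3 : ∀ᵐ x ∂μ, (∀ j, Ergodic (R j) μ) → ∀ j n,
        (μ[f j | MeasurableSpace.invariants (R j)]) (g j n x) = ∫ y, f j y ∂μ := by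
      by_cases he : ∀ j, Ergodic (R j) μ
      · have h4 : ∀ᵐ x ∂μ, ∀ j n,
            (μ[f j | MeasurableSpace.invariants (R j)]) (g j n x) = ∫ y, f j y ∂μ := by
          rw [ae_all_iff]
          intro j
          rw [ae_all_iff]
          intro n
          exact (hg j n).quasiMeasurePreserving.ae
            (Pool.Agent.Run7.h274.Del.erg_const μ (R j) (he j) (f j))
        filter_upwards [h4] with x hx _
        exact hx
      · exact Eventually.of_forall fun x h => absurd h he
    filter_upwards [h1, h2] with ω k1 k2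
    filter_upwards [k1, k2, h3] with x j1 j2 j3
    refine ⟨j1, fun he => ?_⟩
    refine Pool.Agent.Run7.h274.Del.unwS S hS _ _ (j2.congr fun N => ?_)
    congr 1
    refine Finset.sum_congr rfl fun n _ => ?_
    rw [Finset.prod_congr rfl fun j _ => j3 he j n]

end Pool.Agent.Results.MP_f720ae_an.DelayedBoxes
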