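import Pool.Agent.Run7.h484.KB.Fin

/-!
# Kolmogorov extensions: polynomial exponents, unrestricted boxes

A group `G` acts by measure preserving bijections `Φ g` of a probability space `(X, μ)`; for the
maps `T_i = Φ (t_i)` of the problem one takes `t_1, …, t_d ∈ G`. `G` need not be commutative or
nilpotent.

* `IsKolmogorovExtension 𝒜 𝒴 μ Φ ℓ`: with respect to the homomorphism `ℓ : G → ℝ` the action is a
  Kolmogorov extension of its factor `𝒴` with the past `𝒜`: `(Φ g)⁻¹ 𝒜 ⊆ 𝒜` if `ℓ g ≤ 0`, the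
  `(Φ g)⁻¹ 𝒜` generate all measurable sets and their intersection is contained in `𝒴`, modulo `μ`.
  For trivial `𝒴` these are the Kolmogorov (`K`-) actions. Nothing is assumed about `𝒴`.
* `word t p n = t_1^(p_1(n)) ⋯ t_d^(p_d(n))`, and `level ℓ t p` is the real polynomial
  `ℓ (t_1) p_1 + ⋯ + ℓ (t_d) p_d`, whose value at `n` is `ℓ (word t p n)`.
* `SingleAveragesConverge μ S`: the averages of single bounded functions along `S n` over
  unrestricted boxes converge almost everywhere (the case of one function of the problem).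
* `HasDiscreteSpectrum 𝒴 μ Φ`: linear combinations of bounded `𝒴`-measurable eigenfunctions of the
  action are dense, for the `L¹` distance, in the bounded `𝒴`-measurable functions.
-/

set_option autoImplicit false

open Filter Topology MeasureTheory
open scoped ENNReal

namespace Pool.Agent.Results.MP_f720ae_an.KolmogorovBoxes

/-- The action `Φ` is a Kolmogorov extension, with the past `𝒜`, of its factor `𝒴`. -/
structure IsKolmogorovExtension {X G : Type} [Group G] (𝒜 𝒴 : MeasurableSpace X)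
    [mX : MeasurableSpace X] (μ : Measure X) (Φ : G →* Equiv.Perm X) (ℓ : G → ℝ) : Prop where
  /-- the action preserves the measure -/
  pres : ∀ g, MeasurePreserving (Φ g) μ μ
  /-- `ℓ` is a homomorphism -/
  hom : ∀ g h, ℓ (g * h) = ℓ g + ℓ h
  /-- the past consists of measurable sets -/
  past : 𝒜 ≤ mX
  /-- the factor is contained in the past -/
  base : 𝒴 ≤ 𝒜
  /-- the factor is invariant -/
  inv : ∀ g, Measurable[𝒴, 𝒴] (Φ g : X → X)
  /-- the past is monotone -/
  mono : ∀ g, ℓ g ≤ 0 → 𝒜.comap (Φ g : X → X) ≤ 𝒜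
  /-- the images of the past generate everything modulo null sets -/
  gen : ∀ B, MeasurableSet[mX] B →
    ∃ B', MeasurableSet[⨆ g, 𝒜.comap (Φ g : X → X)] B' ∧ B =ᵐ[μ] B'
  /-- the tail is contained in the factor modulo null sets -/
  tail : ∀ B, (∀ g, MeasurableSet[𝒜.comap (Φ g : X → X)] B) →
    ∃ B', MeasurableSet[𝒴] B' ∧ B =ᵐ[μ] B'

/-- The ordered product `t_1^(p_1(n)) ⋯ t_d^(p_d(n))`. -/
noncomputable def word {G : Type} [Group G] {d k : ℕ} (t : Fin d → G)
    (p : Fin d → MvPolynomial (Fin k) ℤ) (n : Fin k → ℕ) : G :=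
  (List.ofFn fun i : Fin d => t i ^ MvPolynomial.eval (fun l => ((n l : ℕ) : ℤ)) (p i)).prod

/-- The real polynomial `ℓ (t_1) p_1 + ⋯ + ℓ (t_d) p_d`. -/
noncomputable def level {G : Type} {d k : ℕ} (ℓ : G → ℝ) (t : Fin d → G)
    (p : Fin d → MvPolynomial (Fin k) ℤ) : MvPolynomial (Fin k) ℝ :=
  ∑ i, MvPolynomial.C (ℓ (t i)) * MvPolynomial.map (Int.castRingHom ℝ) (p i)

/-- For every bounded measurable function `F` the averages of `F (S n x)` over the boxes
`[0, M_1) × ⋯ × [0, M_k)` converge for almost every `x`, as `min M_i → ∞`. -/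
def SingleAveragesConverge {X : Type} [MeasurableSpace X] (μ : Measure X) {k : ℕ}
    (S : (Fin k → ℕ) → X → X) : Prop :=
  ∀ F : X → ℝ, Measurable F → (∃ C : ℝ, ∀ x, |F x| ≤ C) →
    ∀ᵐ x ∂μ, ∃ L : ℝ, Tendsto (fun M : Fin k → ℕ => (∏ l, (M l : ℝ))⁻¹ *
      ∑ n ∈ Fintype.piFinset (fun l => Finset.range (M l)), F (S n x)) atTop (𝓝 L)

/-- The factor `𝒴` has discrete spectrum. -/
def HasDiscreteSpectrum {X G : Type} [Group G] (𝒴 : MeasurableSpace X) [MeasurableSpace X]
    (μ : Measure X) (Φ : G →* Equiv.Perm X) : Prop :=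
  ∀ e : X → ℂ, Measurable[𝒴] e → (∃ C : ℝ, ∀ x, ‖e x‖ ≤ C) → ∀ ε : ℝ, 0 < ε →
    ∃ (s : ℕ) (c : Fin s → ℂ) (h : Fin s → X → ℂ), (∀ i, Measurable[𝒴] (h i) ∧
      (∃ C : ℝ, ∀ x, ‖h i x‖ ≤ C) ∧ ∃ χ : G →* Circle, ∀ g, ∀ᵐ x ∂μ,
        h i (Φ g x) = (χ g : ℂ) * h i x) ∧ ∫ x, ‖e x - ∑ i, c i * h i x‖ ∂μ ≤ ε

/-- Let `X` be a Kolmogorov extension of its factor `𝒴` with respect to `ℓ : G → ℝ`, let
`t_1, …, t_d ∈ G` and `P_ij ∈ ℤ[n_1, …, n_k]` be such that the real polynomials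
`ℓ_j = ∑_i ℓ (t_i) P_ij` involve each of the variables `n_1, …, n_k` and that `ℓ_i - ℓ_j` is not
constant for `i ≠ j`. For each `j` suppose that

* `t_1, …, t_d` commute and `P_1j, …, P_dj` have degree at most one, or
* `t_1^(P_1j(n)) ⋯ t_d^(P_dj(n)) = w u_1^(n_1) ⋯ u_k^(n_k)` for all `n`, for some `w, u_l ∈ G`, or
* the averages of single bounded functions along `t_1^(P_1j(n)) ⋯ t_d^(P_dj(n))` converge a.e.

Let `f_1, …, f_m ∈ L^∞(X)`. All averages are over `[0, M_1) × ⋯ × [0, M_k)`, `min M_i → ∞`.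

1. For all uniformly bounded `𝒴`-measurable weights `c_n` the averages of
   `(∏_j f_j (S_j(n) x) - ∏_j E(f_j | 𝒴) (S_j(n) x)) c_n(x)`, with
   `S_j(n) = Φ (t_1^(P_1j(n)) ⋯ t_d^(P_dj(n)))`, tend to zero for almost every `x`.
2. If `𝒴` has discrete spectrum (for example if `𝒴` is trivial), the averages of
   `∏_j f_j (S_j(n) x)` converge for almost every `x`. -/
theorem result (d k m : ℕ) (hk : 0 < k) {X G : Type} [Group G] (𝒜 𝒴 : MeasurableSpace X)
    [mX : MeasurableSpace X] (μ : Measure X) [IsProbabilityMeasure μ] (Φ : G →* Equiv.Perm X)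
    (ℓ : G → ℝ) (hX : IsKolmogorovExtension 𝒜 𝒴 μ Φ ℓ)
    (t : Fin d → G) (P : Fin d → Fin m → MvPolynomial (Fin k) ℤ)
    (hvar : ∀ j l, (level ℓ t fun i => P i j).degreeOf l ≠ 0)
    (hdiff : ∀ j j', j ≠ j' →
      ((level ℓ t fun i => P i j) - level ℓ t fun i => P i j').totalDegree ≠ 0)
    (hsingle : ∀ j, ((∀ i i', Commute (t i) (t i')) ∧ ∀ i, (P i j).totalDegree ≤ 1) ∨
      (∃ (w : G) (u : Fin k → G), ∀ n : Fin k → ℕ,
        word t (fun i => P i j) n = w * (List.ofFn fun l => u l ^ n l).prod) ∨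
      SingleAveragesConverge μ fun n : Fin k → ℕ => (Φ (word t (fun i => P i j) n) : X → X))
    (f : Fin m → X → ℂ) (hf : ∀ j, MemLp (f j) ∞ μ) :
    (∀ c : (Fin k → ℕ) → X → ℂ, (∀ n, Measurable[𝒴] (c n)) → (∃ C : ℝ, ∀ n x, ‖c n x‖ ≤ C) →
      ∀ᵐ x ∂μ, Tendsto (fun M : Fin k → ℕ => (∏ l, (M l : ℂ))⁻¹ *
        ∑ n ∈ Fintype.piFinset (fun l => Finset.range (M l)),
          (∏ j, f j (Φ (word t (fun i => P i j) n) x) -
            ∏ j, (μ[f j | 𝒴]) (Φ (word t (fun i => P i j) n) x)) * c n x) atTop (𝓝 0)) ∧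
    (HasDiscreteSpectrum 𝒴 μ Φ →
      ∀ᵐ x ∂μ, ∃ L : ℂ, Tendsto (fun M : Fin k → ℕ => (∏ l, (M l : ℂ))⁻¹ *
        ∑ n ∈ Fintype.piFinset (fun l => Finset.range (M l)),
          ∏ j, f j (Φ (word t (fun i => P i j) n) x)) atTop (𝓝 L)) := by
  have hK : Pool.Agent.TH784.KE.KExt μ 𝒜 𝒴 Φ ℓ :=
    ⟨hX.pres, ⟨hX.hom, hX.past, hX.mono⟩, ⟨hX.base, hX.inv⟩, hX.gen, hX.tail⟩
  rcases Nat.eq_zero_or_pos m with hm | hm
  · subst hm
    refine ⟨fun c _ _ => Eventually.of_forall fun x => ?_, fun _ =>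
      Eventually.of_forall fun x => ⟨1, ?_⟩⟩
    · simp only [Finset.univ_eq_empty, Finset.prod_empty, sub_self, zero_mul,
        Finset.sum_const_zero, mul_zero]
      exact tendsto_const_nhds
    · refine tendsto_const_nhds.congr' (eventually_atTop.2 ⟨fun _ => 1, fun M hM => ?_⟩)
      simp only [Finset.univ_eq_empty, Finset.prod_empty]
      rw [Finset.sum_const, Fintype.card_piFinset, nsmul_eq_mul, mul_one]
      simp only [Finset.card_range]
      push_cast
      rw [inv_mul_cancel₀]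
      exact Finset.prod_ne_zero_iff.2 fun l _ => by
        have : 1 ≤ M l := hM l
        exact_mod_cast (by omega : M l ≠ 0)
  · obtain ⟨s₀, hs₀⟩ := Pool.Agent.Run7.h484.KB.exists_pos hK (hvar ⟨0, hm⟩ ⟨0, hk⟩)
    have hlev : ∀ j (n : Fin k → ℕ), ℓ (word t (fun i => P i j) n) =
        Pool.Agent.Run7.h484.KB.ev (level ℓ t fun i => P i j) n := fun j n =>
      Pool.Agent.Run7.h484.KB.level_word hX.hom t (fun i => P i j) n
    have hdisp : ∀ j, Pool.Agent.Run7.h484.KB.Disp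
        fun n : Fin k → ℕ => ℓ (word t (fun i => P i j) n) := by
      intro j
      simp only [hlev]
      exact Pool.Agent.Run7.h484.KB.disp_poly _ (hvar j)
    have hsepa : ∀ j j', j ≠ j' → Pool.Agent.Run7.h484.KB.Sepa
        (fun n : Fin k → ℕ => ℓ (word t (fun i => P i j) n))
        (fun n : Fin k → ℕ => ℓ (word t (fun i => P i j') n)) := by
      intro j j' hjj
      simp only [hlev]
      exact Pool.Agent.Run7.h484.KB.sepa_poly _ _ (hdiff j j' hjj)
    have hgood : ∀ j, Pool.Agent.W761.Box.Good1 μ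
        fun n : Fin k → ℕ => (Φ (word t (fun i => P i j) n) : X → X) := by
      intro j
      rcases hsingle j with ⟨hc, hdeg⟩ | ⟨w, u, hwu⟩ | h
      · exact Pool.Agent.Run7.h484.KB.good_comm hX.pres t hc (fun i => P i j) hdeg
      · simp only [hwu]
        exact Pool.Agent.Run7.h484.KB.good_lin hX.pres w u
      · exact h
    refine ⟨fun c hc hcb => ?_, fun hdisc => ?_⟩
    · exact Pool.Agent.Run7.h484.KB.char_top (q := fun n j => word t (fun i => P i j) n) hk hK hs₀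
        hdisp hsepa hgood hc hcb hf
    · exact Pool.Agent.Run7.h484.KB.disc_top hk hK hs₀ t (fun j i => P i j) hdisp hsepa hgood
        hdisc hf

end Pool.Agent.Results.MP_f720ae_an.KolmogorovBoxes
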