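import Pool.Agent.Run7.h484.KG.CocCube

/-!
# Cocycle extensions with Kolmogorov fibres: several parameters

A group `H` acts by measure preserving bijections `Ψ h` of a probability space `(Ω, P)`, a group `G`
acts by measure preserving bijections `Φ g` of a probability space `(Y, ν)`, and `c : H → Ω → G` is a
cocycle, `c (h h') ω = c h (Ψ h' ω) c h' ω`. The maps `ext Ψ Φ c h (ω, y) = (Ψ h ω, Φ (c h ω) y)` form
an action of `H` on `Ω × Y`. For the maps `T_i` of the problem one takes `T_i = ext Ψ Φ c (t_i)` with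
`t_1, …, t_d ∈ H`. `H` need not be commutative or nilpotent, and its action on `Ω` is arbitrary. All
averages are over the cubes `cube k N = [0, N)^k` (the diagonal limit `M_1 = … = M_k = N`).

* `IsKolmogorovExtension 𝒜 𝒴 ν Φ ℓ`: with respect to the homomorphism `ℓ : G → ℝ` the action `Φ` is a
  Kolmogorov extension of its factor `𝒴` with the past `𝒜`: `(Φ g)⁻¹ 𝒜 ⊆ 𝒜` if `ℓ g ≤ 0`, the
  `(Φ g)⁻¹ 𝒜` generate all measurable sets and their intersection is contained in `𝒴`, modulo `ν`.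
  For trivial `𝒴` these are the Kolmogorov (`K`-) actions. No rate of mixing is assumed.
* `Dispersed a`: for every `R`, outside a set of density zero, at most `o(N^k / log N)` of the points
  `n` of the cube have `a n` in a common interval of length `R`. `Separated a b`: for every `R` the
  set of the `n` with `|a n - b n| < R` has density zero.
* `Spread P φ`: for almost every `ω` each `n ↦ φ j n ω` is dispersed and any two of them are
  separated. `HasRates P φ` (implies `Spread P φ`): the expected number of pairs `n, n'` in the cube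
  with `|φ j n - φ j n'| < R` is `O(N^(2k) / (log N)^c)` with some `c > 3`, and for `i ≠ j` the
  expected number of `n` in the cube with `|φ i n - φ j n| < R` is `O(N^k / (log N)^c)` with some
  `c > 1`.
* `word t p n = t_1^(p_1(n)) ⋯ t_d^(p_d(n))` for integer polynomials `p_i` of `k` variables.
* `SingleAveragesConverge μ S`: the averages over cubes of single bounded functions along `S n`
  converge almost everywhere (the case of one function).
* `HasDiscreteSpectrum P Ψ`: linear combinations of bounded joint eigenfunctions of the action `Ψ`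
  are dense, for the `L¹` distance, in the bounded measurable functions.
-/

set_option autoImplicit false

open Filter Topology MeasureTheory
open scoped ENNReal

namespace Pool.Agent.Results.MP_f720ae_an.KolmogorovCocycleCubes

/-- The action `Φ` is a Kolmogorov extension, with the past `𝒜`, of its factor `𝒴`. -/
structure IsKolmogorovExtension {Y G : Type} [Group G] (𝒜 𝒴 : MeasurableSpace Y)
    [mY : MeasurableSpace Y] (ν : Measure Y) (Φ : G →* Equiv.Perm Y) (ℓ : G → ℝ) : Prop where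
  /-- the action preserves the measure -/
  pres : ∀ g, MeasurePreserving (Φ g) ν ν
  /-- `ℓ` is a homomorphism -/
  hom : ∀ g h, ℓ (g * h) = ℓ g + ℓ h
  /-- the past consists of measurable sets -/
  past : 𝒜 ≤ mY
  /-- the factor is contained in the past -/
  base : 𝒴 ≤ 𝒜
  /-- the factor is invariant -/
  inv : ∀ g, Measurable[𝒴, 𝒴] (Φ g : Y → Y)
  /-- the past is monotone -/
  mono : ∀ g, ℓ g ≤ 0 → 𝒜.comap (Φ g : Y → Y) ≤ 𝒜
  /-- the images of the past generate everything modulo null sets -/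
  gen : ∀ B, MeasurableSet[mY] B →
    ∃ B', MeasurableSet[⨆ g, 𝒜.comap (Φ g : Y → Y)] B' ∧ B =ᵐ[ν] B'
  /-- the tail is contained in the factor modulo null sets -/
  tail : ∀ B, (∀ g, MeasurableSet[𝒜.comap (Φ g : Y → Y)] B) →
    ∃ B', MeasurableSet[𝒴] B' ∧ B =ᵐ[ν] B'

/-- The cube `[0, N)^k`. -/
def cube (k N : ℕ) : Finset (Fin k → ℕ) := Fintype.piFinset fun _ => Finset.range N

open Classical in
/-- The set `E` has density zero along the cubes. -/
def DensityZero {k : ℕ} (E : Set (Fin k → ℕ)) : Prop :=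
  Tendsto (fun N : ℕ => (((cube k N).filter fun n => n ∈ E).card : ℝ) / (N : ℝ) ^ k) atTop (𝓝 0)

/-- For every `R` there is a set `E` of density zero such that at most `L N = o(N^k / log N)` of the
`n ∉ E` in the cube `[0, N)^k` have `a n` in a given interval of length `R`. -/
def Dispersed {k : ℕ} (a : (Fin k → ℕ) → ℝ) : Prop :=
  ∀ R : ℝ, ∃ (L : ℕ → ℕ) (E : Set (Fin k → ℕ)), DensityZero E ∧
    Tendsto (fun N : ℕ => (L N : ℝ) * Real.log N / (N : ℝ) ^ k) atTop (𝓝 0) ∧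
    ∀ (N : ℕ) (s : ℝ) (T : Finset (Fin k → ℕ)),
      (∀ n ∈ T, (∀ l, n l < N) ∧ n ∉ E ∧ s ≤ a n ∧ a n < s + R) → T.card ≤ L N

/-- For every `R` the distance of `a n` and `b n` is at least `R` outside a set of density zero. -/
def Separated {k : ℕ} (a b : (Fin k → ℕ) → ℝ) : Prop := ∀ R : ℝ, DensityZero {n | |a n - b n| < R}

/-- The ordered product `t_1^(p_1(n)) ⋯ t_d^(p_d(n))`. -/
noncomputable def word {G : Type} [Group G] {d k : ℕ} (t : Fin d → G)
    (p : Fin d → MvPolynomial (Fin k) ℤ) (n : Fin k → ℕ) : G :=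
  (List.ofFn fun i : Fin d => t i ^ MvPolynomial.eval (fun l => ((n l : ℕ) : ℤ)) (p i)).prod

/-- For every bounded measurable function `F` the averages of `F (S n x)` over the cubes converge
for almost every `x`. -/
def SingleAveragesConverge {X : Type} [MeasurableSpace X] (μ : Measure X) {k : ℕ}
    (S : (Fin k → ℕ) → X → X) : Prop :=
  ∀ F : X → ℝ, Measurable F → (∃ C : ℝ, ∀ x, |F x| ≤ C) →
    ∀ᵐ x ∂μ, ∃ L : ℝ, Tendsto (fun N : ℕ => ((N : ℝ) ^ k)⁻¹ *
      ∑ n ∈ cube k N, F (S n x)) atTop (𝓝 L)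

/-- For almost every `ω` the functions `n ↦ φ j n ω` are dispersed and pairwise separated. -/
def Spread {Ω : Type} [MeasurableSpace Ω] (P : Measure Ω) {k m : ℕ}
    (φ : Fin m → (Fin k → ℕ) → Ω → ℝ) : Prop :=
  (∀ j, ∀ᵐ ω ∂P, Dispersed fun n => φ j n ω) ∧
    ∀ i j, i ≠ j → ∀ᵐ ω ∂P, Separated (fun n => φ i n ω) fun n => φ j n ω

/-- Rates for the expected numbers of close pairs. -/
def HasRates {Ω : Type} [MeasurableSpace Ω] (P : Measure Ω) {k m : ℕ}
    (φ : Fin m → (Fin k → ℕ) → Ω → ℝ) : Prop :=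
  (∀ j, ∀ R : ℝ, ∃ c C : ℝ, 3 < c ∧ ∀ N : ℕ, 2 ≤ N →
    ∑ n ∈ cube k N, ∑ n' ∈ cube k N,
      P.real {ω | |φ j n ω - φ j n' ω| < R} ≤ C * ((N : ℝ) ^ k) ^ 2 / (Real.log N) ^ c) ∧
    ∀ i j, i ≠ j → ∀ R : ℝ, ∃ c C : ℝ, 1 < c ∧ ∀ N : ℕ, 2 ≤ N →
      ∑ n ∈ cube k N, P.real {ω | |φ i n ω - φ j n ω| < R} ≤
        C * (N : ℝ) ^ k / (Real.log N) ^ c

/-- The action `Ψ` has discrete spectrum. -/
def HasDiscreteSpectrum {Ω H : Type} [Group H] [MeasurableSpace Ω] (P : Measure Ω)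
    (Ψ : H →* Equiv.Perm Ω) : Prop :=
  ∀ e : Ω → ℂ, Measurable e → (∃ C : ℝ, ∀ x, ‖e x‖ ≤ C) → ∀ ε : ℝ, 0 < ε →
    ∃ (s : ℕ) (c : Fin s → ℂ) (h : Fin s → Ω → ℂ), (∀ i, Measurable (h i) ∧
      (∃ C : ℝ, ∀ x, ‖h i x‖ ≤ C) ∧ ∃ χ : H →* Circle, ∀ g, ∀ᵐ x ∂P,
        h i (Ψ g x) = (χ g : ℂ) * h i x) ∧ ∫ x, ‖e x - ∑ i, c i * h i x‖ ∂P ≤ ε

/-- The maps `(ω, y) ↦ (Ψ h ω, Φ (c h ω) y)` of the cocycle extension. -/
def ext {Ω Y G H : Type} [Group G] [Group H] (Ψ : H →* Equiv.Perm Ω) (Φ : G →* Equiv.Perm Y)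
    (c : H → Ω → G) (h : H) (z : Ω × Y) : Ω × Y := (Ψ h z.1, Φ (c h z.1) z.2)

/-- The averages over the cubes of `∏_j f_j (S j n z)` converge almost everywhere. -/
def Converge {Z : Type} [MeasurableSpace Z] (ρ : Measure Z) {k m : ℕ}
    (S : Fin m → (Fin k → ℕ) → Z → Z) (f : Fin m → Z → ℂ) : Prop :=
  ∀ᵐ z ∂ρ, ∃ L : ℂ, Tendsto (fun N : ℕ => ((N : ℂ) ^ k)⁻¹ *
    ∑ n ∈ cube k N, ∏ j, f j (S j n z)) atTop (𝓝 L)

/-- Let `H` act on `Ω × Y` by the cocycle extension `T_h = ext Ψ Φ c h` of an arbitrary measure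
preserving action on `Ω`, where the action `Φ` on the fibre `Y` is a Kolmogorov extension of its
factor `𝒴` with respect to `ℓ : G → ℝ`. Let `g_1, …, g_m : ℕ^k → H` be maps such that the functions
`n ↦ ℓ (c (g_j(n)) ω)` are spread, and such that for each `j` either
`g_j(n) = w u_1^(n_1) ⋯ u_k^(n_k)` for some `w, u_l ∈ H` or the averages of single bounded functions
along `T_{g_j(n)}` converge. All averages are over the cubes `[0, N)^k`.

1. The product of `Ω` and `𝒴` is characteristic: for all `f_j ∈ L^∞(P × ν)` the averages of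
   `∏_j f_j (T_{g_j(n)} z) - ∏_j E(f_j | Ω × 𝒴) (T_{g_j(n)} z)` tend to zero for almost every `z`.
2. Hence if the averages of `∏_j h_j (T_{g_j(n)} z)` converge almost everywhere for all bounded
   `Ω × 𝒴`-measurable `h_j`, then they converge almost everywhere for all `f_j ∈ L^∞(P × ν)`.
3. If `𝒴` is trivial (that is, if `Φ` is a `K`-action) and the averages of `∏_j h_j (Ψ (g_j(n)) ω)`
   converge almost everywhere for all bounded measurable `h_j` on `Ω`, then those of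
   `∏_j f_j (T_{g_j(n)} z)` converge almost everywhere for all `f_j ∈ L^∞(P × ν)`.
4. In particular they converge if `𝒴` is trivial, the action on `Ω` has discrete spectrum and
   `g_j(n) = t_1^(P_1j(n)) ⋯ t_d^(P_dj(n))` with `t_i ∈ H`, `P_ij ∈ ℤ[n_1, …, n_k]`.

The functions are spread if they are measurable in `ω` and have rates. -/
theorem result (k m : ℕ) (hk : 0 < k) {Ω Y G H : Type} [Group G] [Group H]
    [mΩ : MeasurableSpace Ω] (P : Measure Ω) [IsProbabilityMeasure P]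
    (𝒜 𝒴 : MeasurableSpace Y) [mY : MeasurableSpace Y]
    (ν : Measure Y) [IsProbabilityMeasure ν] (Φ : G →* Equiv.Perm Y) (ℓ : G → ℝ)
    (hY : IsKolmogorovExtension 𝒜 𝒴 ν Φ ℓ) (Ψ : H →* Equiv.Perm Ω)
    (hΨ : ∀ h, MeasurePreserving (Ψ h) P P) (c : H → Ω → G)
    (hc : ∀ h h' ω, c (h * h') ω = c h (Ψ h' ω) * c h' ω)
    (hcm : ∀ h, Measurable fun z : Ω × Y => Φ (c h z.1) z.2) (g : Fin m → (Fin k → ℕ) → H)
    (hg : ∀ j, (∃ (w : H) (u : Fin k → H), ∀ n, g j n = w * (List.ofFn fun l => u l ^ n l).prod) ∨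
      SingleAveragesConverge (P.prod ν) fun n => ext Ψ Φ c (g j n)) :
    (Spread P (fun j n ω => ℓ (c (g j n) ω)) →
      (∀ f : Fin m → Ω × Y → ℂ, (∀ j, MemLp (f j) ∞ (P.prod ν)) →
        ∀ᵐ z ∂(P.prod ν), Tendsto (fun N : ℕ => ((N : ℂ) ^ k)⁻¹ *
          ∑ n ∈ cube k N, (∏ j, f j (ext Ψ Φ c (g j n) z) -
            ∏ j, ((P.prod ν)[f j | mΩ.prod 𝒴]) (ext Ψ Φ c (g j n) z))) atTop (𝓝 0)) ∧
      ((∀ h : Fin m → Ω × Y → ℂ, (∀ j, Measurable[mΩ.prod 𝒴] (h j)) →
          (∀ j, ∃ C : ℝ, ∀ z, ‖h j z‖ ≤ C) →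
            Converge (P.prod ν) (fun j n => ext Ψ Φ c (g j n)) h) →
        ∀ f : Fin m → Ω × Y → ℂ, (∀ j, MemLp (f j) ∞ (P.prod ν)) →
          Converge (P.prod ν) (fun j n => ext Ψ Φ c (g j n)) f) ∧
      (𝒴 = ⊥ → (∀ h : Fin m → Ω → ℂ, (∀ j, Measurable (h j)) →
          (∀ j, ∃ C : ℝ, ∀ z, ‖h j z‖ ≤ C) → Converge P (fun j n => (Ψ (g j n) : Ω → Ω)) h) →
        ∀ f : Fin m → Ω × Y → ℂ, (∀ j, MemLp (f j) ∞ (P.prod ν)) →
          Converge (P.prod ν) (fun j n => ext Ψ Φ c (g j n)) f) ∧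
      (𝒴 = ⊥ → HasDiscreteSpectrum P Ψ →
        (∃ (d : ℕ) (t : Fin d → H) (Q : Fin d → Fin m → MvPolynomial (Fin k) ℤ),
          ∀ j n, g j n = word t (fun i => Q i j) n) →
        ∀ f : Fin m → Ω × Y → ℂ, (∀ j, MemLp (f j) ∞ (P.prod ν)) →
          Converge (P.prod ν) (fun j n => ext Ψ Φ c (g j n)) f)) ∧
    ((∀ j n, Measurable fun ω => ℓ (c (g j n) ω)) → HasRates P (fun j n ω => ℓ (c (g j n) ω)) →
      Spread P (fun j n ω => ℓ (c (g j n) ω))) := by
  have hK : Pool.Agent.TH784.KE.KExt ν 𝒜 𝒴 Φ ℓ :=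
    ⟨hY.pres, ⟨hY.hom, hY.past, hY.mono⟩, ⟨hY.base, hY.inv⟩, hY.gen, hY.tail⟩
  have hT : ∀ h, MeasurePreserving (ext Ψ Φ c h) (P.prod ν) (P.prod ν) := fun h =>
    Pool.Agent.Run7.h484.KG.cx_mp hY.pres hΨ hcm h
  have hgood : ∀ j, Pool.Agent.TH739.PA.Good atTop
      (fun N => Pool.Agent.Run7.h484.KG.qb k (N + 1)) (P.prod ν)
      fun n => Pool.Agent.Run7.h484.KG.cx Ψ Φ c (g j n) := by
    intro j
    rcases hg j with ⟨w, u, hwu⟩ | h
    · have h1 := Pool.Agent.Run7.h484.KG.good_cxk hY.pres hΨ hc hcm w u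
      have h2 : (fun n => Pool.Agent.Run7.h484.KG.cx Ψ Φ c (g j n)) =
          fun n : Fin k → ℕ => Pool.Agent.Run7.h484.KG.cx Ψ Φ c
            (w * (List.ofFn fun l => u l ^ n l).prod) := by
        funext n
        rw [hwu n]
      rw [h2]
      exact h1
    · intro F hF hb
      filter_upwards [h F hF hb] with x hx
      obtain ⟨L, hL⟩ := hx
      rw [← tendsto_add_atTop_iff_nat 1] at hL
      refine ⟨L, hL.congr fun N => ?_⟩
      unfold Pool.Agent.TH739.PA.avr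
      rw [Pool.Agent.Run7.h484.KG.qb_card]
      push_cast
      rfl
  refine ⟨fun hs => ?_, fun hm hr => ⟨fun j => Pool.Agent.Run7.h484.KG.pair_dispc (hm j) (hr.1 j),
    fun i j hij => Pool.Agent.Run7.h484.KG.close_sepc (hm i) (hm j) (hr.2 i j hij)⟩⟩
  have h1 : ∀ f : Fin m → Ω × Y → ℂ, (∀ j, MemLp (f j) ∞ (P.prod ν)) →
      ∃ e : Fin m → Ω × Y → ℂ, (∀ j, Pool.Agent.W761.Gauss.BM (e j)) ∧
        (∀ j, Measurable[mΩ.prod 𝒴] (e j)) ∧
        (∀ j, e j =ᵐ[P.prod ν] (P.prod ν)[f j | mΩ.prod 𝒴]) ∧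
        ∀ᵐ z ∂(P.prod ν), Tendsto (fun N : ℕ => ((N : ℂ) ^ k)⁻¹ *
          ∑ n ∈ cube k N, (∏ j, f j (ext Ψ Φ c (g j n) z) -
            ∏ j, e j (ext Ψ Φ c (g j n) z))) atTop (𝓝 0) := by
    intro f hf
    rcases Nat.eq_zero_or_pos m with hm | hm
    · subst hm
      refine ⟨fun j => j.elim0, fun j => j.elim0, fun j => j.elim0, fun j => j.elim0, ?_⟩
      refine Eventually.of_forall fun x => ?_
      simp only [Finset.univ_eq_empty, Finset.prod_empty, sub_self, Finset.sum_const_zero,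
        mul_zero]
      exact tendsto_const_nhds
    have hPne : (ae P).NeBot := inferInstance
    obtain ⟨ω₀, hω₀⟩ := (hs.1 ⟨0, hm⟩).exists
    obtain ⟨s₀, hs₀⟩ := Pool.Agent.Run7.h484.KG.exists_posc (ℓ := ℓ) hK.filt.inv
      (a := fun n => c (g ⟨0, hm⟩ n) ω₀) hω₀
    obtain ⟨e, he, heY, hee, hz⟩ := Pool.Agent.Run7.h484.KG.char_cocg hK hs₀ hΨ hcm
      (Bs := fun N => Pool.Agent.Run7.h484.KG.qb k (N + 1))
      (fun N => Pool.Agent.Run7.h484.KG.qb_ne k N)
      (fun j => by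
        filter_upwards [hs.1 j] with ω hω
        exact Pool.Agent.Run7.h484.KG.Dispc.toDispg hk hω)
      (fun i j hij => by
        filter_upwards [hs.2 i j hij] with ω hω R
        exact Pool.Agent.Run7.h484.KG.DZc.toDZg (hω R))
      hgood hf
    refine ⟨e, he, heY, hee, ?_⟩
    filter_upwards [hz] with z hz
    exact Pool.Agent.Run7.h484.KG.av_cube hz
  have h2 : (∀ h : Fin m → Ω × Y → ℂ, (∀ j, Measurable[mΩ.prod 𝒴] (h j)) →
        (∀ j, ∃ C : ℝ, ∀ z, ‖h j z‖ ≤ C) →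
          Converge (P.prod ν) (fun j n => ext Ψ Φ c (g j n)) h) →
      ∀ f : Fin m → Ω × Y → ℂ, (∀ j, MemLp (f j) ∞ (P.prod ν)) →
        Converge (P.prod ν) (fun j n => ext Ψ Φ c (g j n)) f := by
    intro hb f hf
    obtain ⟨e, he, heY, -, hz⟩ := h1 f hf
    have hcv := hb e heY fun j => (he j).2
    filter_upwards [hz, hcv] with z hz hcv
    obtain ⟨L, hL⟩ := hcv
    refine ⟨0 + L, (hz.add hL).congr fun N => ?_⟩
    rw [← mul_add, ← Finset.sum_add_distrib]
    congr 1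
    refine Finset.sum_congr rfl fun n _ => ?_
    exact sub_add_cancel _ _
  have h3 : 𝒴 = ⊥ → (∀ h : Fin m → Ω → ℂ, (∀ j, Measurable (h j)) →
        (∀ j, ∃ C : ℝ, ∀ z, ‖h j z‖ ≤ C) → Converge P (fun j n => (Ψ (g j n) : Ω → Ω)) h) →
      ∀ f : Fin m → Ω × Y → ℂ, (∀ j, MemLp (f j) ∞ (P.prod ν)) →
        Converge (P.prod ν) (fun j n => ext Ψ Φ c (g j n)) f := by
    intro hbot hb
    refine h2 fun h hh hbd => ?_
    have hne : Nonempty Y := by
      by_contra hcon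
      rw [not_nonempty_iff] at hcon
      have h4 : ν Set.univ = 1 := measure_univ
      rw [Set.univ_eq_empty_iff.2 hcon, measure_empty] at h4
      exact zero_ne_one h4
    obtain ⟨y₀⟩ := hne
    subst hbot
    have h5 := fun j => Pool.Agent.Run7.h484.KG.of_bot (hY.base.trans hY.past) (hh j) y₀
    have h6 := hb (fun j ω => h j (ω, y₀)) (fun j => (h5 j).1)
      fun j => (hbd j).imp fun C hC ω => hC _
    have h7 : ∀ᵐ z ∂(P.prod ν), ∃ L : ℂ, Tendsto (fun N : ℕ => ((N : ℂ) ^ k)⁻¹ *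
        ∑ n ∈ cube k N, ∏ j, h j (Ψ (g j n) z.1, y₀)) atTop (𝓝 L) :=
      Measure.quasiMeasurePreserving_fst.ae h6
    filter_upwards [h7] with z hz
    obtain ⟨L, hL⟩ := hz
    refine ⟨L, hL.congr fun N => ?_⟩
    congr 1
    refine Finset.sum_congr rfl fun n _ => Finset.prod_congr rfl fun j _ => ?_
    exact ((h5 j).2 _ _).symm
  refine ⟨fun f hf => ?_, h2, h3, fun hbot hd hw => h3 hbot fun h hh hbd => ?_⟩
  · obtain ⟨e, -, -, hee, hz⟩ := h1 f hf
    have h4 : ∀ᵐ z ∂(P.prod ν), ∀ (n : Fin k → ℕ) (j : Fin m),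
        e j (ext Ψ Φ c (g j n) z) =
          ((P.prod ν)[f j | mΩ.prod 𝒴]) (ext Ψ Φ c (g j n) z) := by
      rw [ae_all_iff]
      intro n
      rw [ae_all_iff]
      intro j
      exact (hT _).quasiMeasurePreserving.ae (hee j)
    filter_upwards [hz, h4] with z hz hz2
    refine hz.congr fun N => ?_
    congr 1
    refine Finset.sum_congr rfl fun n _ => ?_
    congr 1
    exact Finset.prod_congr rfl fun j _ => hz2 n j
  · obtain ⟨d, t, Q, hQ⟩ := hw
    have h5 : ∀ j, g j = fun n => Pool.Agent.Run7.h484.KB.word t (fun i => Q i j) n :=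
      fun j => funext (hQ j)
    have h6 : ∀ j, Pool.Agent.TH739.PA.Good atTop
        (fun N => Pool.Agent.Run7.h484.KG.qb k (N + 1)) P
        fun n => (Ψ (Pool.Agent.Run7.h484.KB.word t (fun i => Q i j) n) : Ω → Ω) := by
      intro j
      have h7 := Pool.Agent.Run7.h484.KG.good_basec (hgood j)
      rw [h5 j] at h7
      exact h7
    have h8 := Pool.Agent.Run7.h484.KG.disc_cube hΨ t (fun j i => Q i j) h6 hd
      (e := h) fun j => ⟨hh j, hbd j⟩
    filter_upwards [h8] with ω hω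
    obtain ⟨L, hL⟩ := hω
    refine ⟨L, (Pool.Agent.Run7.h484.KG.av_cube hL).congr fun N => ?_⟩
    congr 1
    refine Finset.sum_congr rfl fun n _ => Finset.prod_congr rfl fun j _ => ?_
    rw [hQ j n]
    rfl

end Pool.Agent.Results.MP_f720ae_an.KolmogorovCocycleCubes
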