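import Pool.Agent.Run7.h694.BT.C

/-!
# Unrestricted box averages: towers of extensions of group actions (MP_f720ae_an)

`G` is any group (nilpotent or not) which acts by measure preserving bijections `Φ g` of probability
spaces. For `u = (u_1, …, u_k)` in `G^k` and `n` in `ℕ^k` let `E_u (n) = u_1^{n_1} ⋯ u_k^{n_k}`. For
`T_1, …, T_k` generating `G` and `u_l = T_l^{a_l}` these are the maps `T_1^{a_1 n_1} ⋯ T_k^{a_k n_k}` of the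
question. The files of this folder treat single actions (affine, Gaussian, Poisson). Here a set `𝒰` of
`u`'s is fixed, and the class of actions with convergence is closed under extensions, which are iterated
in any order and any number of times.

Notions of the starting library:
* `orb k V n ω = V_1^{n_1} (V_2^{n_2} (⋯ V_k^{n_k} ω))` for maps `V_1, …, V_k` of a space;
* `IsGaussAct μ Φ`: an action of commuting maps on a Gaussian space: there is a real vector space `H` of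
  centered Gaussian variables, invariant under all `Φ g` (modulo null sets), which generates the
  `σ`-algebra;
* `IsDiscAct δ Δ`: an action with discrete spectrum: linear combinations of bounded eigenfunctions are
  dense;
* `IsPoissonAction κ Θ ν Ψ`: the action `Ψ` on the probability space `(Y, ν)` is a Poisson suspension of
  the action `Θ` on the (infinite) measure space `(W, κ)`;
* `pact Φ Ψ`: the product action `g ↦ Φ g × Ψ g`.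
-/

set_option autoImplicit false

open Filter Topology MeasureTheory ProbabilityTheory
open scoped ENNReal symmDiff

namespace Pool.Agent.Results.MP_f720ae_an.TowersOfBoxes

open Pool.Agent.W761.Box (orb)
open Pool.Agent.TH739.PA (IsPoissonAction)
open Pool.Agent.TH739.PB (pact pact_mp IsDiscAct IsGaussAct)

/-- a measure preserving action of `G` on a probability space -/
structure Sys (G : Type) [Group G] where
  X : Type
  [ms : MeasurableSpace X]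
  μ : Measure X
  [prob : IsProbabilityMeasure μ]
  Φ : G →* Equiv.Perm X
  mp : ∀ g, MeasurePreserving (Φ g) μ μ

attribute [instance] Sys.ms Sys.prob

variable {G : Type} [Group G] {k : ℕ}

/-- the averages of `∏ j, f j (w j u_{j1}^{n_1} ⋯ u_{jk}^{n_k} x)` over the boxes `[0, M_1) × ⋯ × [0, M_k)`,
`u_j ∈ 𝒰`, `w_j ∈ G`, converge for almost every `x`, without restriction on the sides -/
def Converges (𝒰 : Set (Fin k → G)) (𝕏 : Sys G) : Prop :=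
  ∀ (m : ℕ) (u : Fin m → Fin k → G) (w : Fin m → G), (∀ j, u j ∈ 𝒰) →
    ∀ f : Fin m → 𝕏.X → ℂ, (∀ j, MemLp (f j) ∞ 𝕏.μ) →
    ∀ᵐ x ∂𝕏.μ, ∃ L : ℂ, Tendsto (fun M : Fin k → ℕ => (∏ l, (M l : ℂ))⁻¹ *
      ∑ n ∈ Fintype.piFinset (fun l => Finset.range (M l)),
        ∏ j, f j (𝕏.Φ (w j * (List.ofFn fun l => u j l ^ n l).prod) x)) atTop (𝓝 L)

/-- convergence jointly with every further system of `k` measure preserving maps `V_1, …, V_k` of a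
probability space `(Ω, P)`, which need not commute nor be invertible: the averages of
`(∏ j, f j (w j u_{j1}^{n_1} ⋯ u_{jk}^{n_k} x)) h (V_1^{n_1} ⋯ V_k^{n_k} ω)` converge for almost every
`(x, ω)` -/
def ConvergesJointly (𝒰 : Set (Fin k → G)) (𝕏 : Sys G) : Prop :=
  ∀ (m : ℕ) (u : Fin m → Fin k → G) (w : Fin m → G), (∀ j, u j ∈ 𝒰) →
    ∀ f : Fin m → 𝕏.X → ℂ, (∀ j, MemLp (f j) ∞ 𝕏.μ) →
    ∀ (Ω : Type) [MeasurableSpace Ω] (P : Measure Ω) [IsProbabilityMeasure P]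
      (V : Fin k → Ω → Ω), (∀ l, MeasurePreserving (V l) P P) → ∀ h : Ω → ℂ, MemLp h ∞ P →
    ∀ᵐ p ∂(𝕏.μ.prod P), ∃ L : ℂ, Tendsto (fun M : Fin k → ℕ => (∏ l, (M l : ℂ))⁻¹ *
      ∑ n ∈ Fintype.piFinset (fun l => Finset.range (M l)),
        (∏ j, f j (𝕏.Φ (w j * (List.ofFn fun l => u j l ^ n l).prod) p.1)) * h (orb k V n p.2))
      atTop (𝓝 L)

/-- the one-point system -/
noncomputable def Sys.point : Sys G := ⟨Unit, Measure.dirac (), 1, fun _ => MeasurePreserving.id _⟩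

/-- the product of two actions -/
noncomputable def Sys.prod (𝕏 𝕐 : Sys G) : Sys G :=
  ⟨𝕏.X × 𝕐.X, 𝕏.μ.prod 𝕐.μ, pact 𝕏.Φ 𝕐.Φ, pact_mp 𝕏.mp 𝕐.mp⟩

/-- `π` is a factor map from `𝕏` onto `𝕐` -/
structure IsFactorMap (𝕏 𝕐 : Sys G) (π : 𝕏.X → 𝕐.X) : Prop where
  mp : MeasurePreserving π 𝕏.μ 𝕐.μ
  equi : ∀ g, ∀ᵐ x ∂𝕏.μ, π (𝕏.Φ g x) = 𝕐.Φ g (π x)

/-- `𝕏` is a Kolmogorov extension of `𝕐`, with respect to the homomorphism `ℓ : G → ℝ`: the `σ`-algebra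
`𝒜` decreases under the maps `Φ g` with `ℓ g ≤ 0`, its translates generate, and a set which belongs to all
translates of `𝒜` comes from `𝕐` (modulo null sets) -/
structure IsKolmogorov (𝕏 𝕐 : Sys G) (π : 𝕏.X → 𝕐.X) (𝒜 : MeasurableSpace 𝕏.X) (ℓ : G → ℝ) :
    Prop where
  mp : @MeasurePreserving 𝕏.X 𝕐.X 𝕏.ms 𝕐.ms π 𝕏.μ 𝕐.μ
  equi : ∀ g x, π (𝕏.Φ g x) = 𝕐.Φ g (π x)
  hom : ∀ g h, ℓ (g * h) = ℓ g + ℓ h
  le : 𝒜 ≤ 𝕏.ms
  base : 𝕐.ms.comap π ≤ 𝒜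
  mono : ∀ g, ℓ g ≤ 0 → 𝒜.comap (𝕏.Φ g : 𝕏.X → 𝕏.X) ≤ 𝒜
  gen : ∀ B, MeasurableSet[𝕏.ms] B →
    ∃ B', MeasurableSet[⨆ g, 𝒜.comap (𝕏.Φ g : 𝕏.X → 𝕏.X)] B' ∧ B =ᵐ[𝕏.μ] B'
  tail : ∀ B, (∀ g, MeasurableSet[𝒜.comap (𝕏.Φ g : 𝕏.X → 𝕏.X)] B) →
    ∃ D, MeasurableSet D ∧ B =ᵐ[𝕏.μ] π ⁻¹' D

/-- `ℓ` does not vanish on the entries of the elements of `𝒰` and separates these elements -/
def Separates (ℓ : G → ℝ) (𝒰 : Set (Fin k → G)) : Prop :=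
  (∀ u ∈ 𝒰, ∀ l, ℓ (u l) ≠ 0) ∧ ∀ u ∈ 𝒰, ∀ v ∈ 𝒰, u ≠ v → ∃ l, ℓ (u l) ≠ ℓ (v l)

/-- For `A`, `B` in a dense family of sets of finite measure of the space `(W, κ)`, and `u ≠ v` in `𝒰`, the
overlaps `κ (E_u (p)⁻¹ A ∩ E_v (p)⁻¹ B) / ∏ l, (1 + p l)` are summable; the sum extends over the `p ∈ ℕ^k`
with `p l = 0` for the `l` for which `u l = v l` is central. -/
def SummableOverlaps {W : Type} [MeasurableSpace W] (𝒰 : Set (Fin k → G)) (κ : Measure W)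
    (Θ : G →* Equiv.Perm W) : Prop :=
  ∃ ℛ : Set (Set W), (∀ A ∈ ℛ, MeasurableSet A ∧ κ A ≠ ∞) ∧
    (∀ A, MeasurableSet A → κ A ≠ ∞ → ∀ ε : ℝ, 0 < ε → ∃ B ∈ ℛ, (κ (A ∆ B)).toReal ≤ ε) ∧
    ∀ u ∈ 𝒰, ∀ v ∈ 𝒰, u ≠ v → ∀ A ∈ ℛ, ∀ B ∈ ℛ,
      Summable fun p : {p : Fin k → ℕ // ∀ l, u l = v l ∧ u l ∈ Subgroup.center G → p l = 0} =>
        κ.real (Θ (List.ofFn fun l => u l ^ p.1 l).prod ⁻¹' A ∩
          Θ (List.ofFn fun l => v l ^ p.1 l).prod ⁻¹' B) / ∏ l, (1 + (p.1 l : ℝ))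

/-- The two classes, `Tower 𝒰 𝒥 𝒢 true` for joint and `Tower 𝒰 𝒥 𝒢 false` for plain convergence.

The joint class contains a given class `𝒥`, the one-point system and the Gaussian actions; it is closed
under products with actions with discrete spectrum and under products with Poisson suspensions with
summable overlaps. The plain class contains a given class `𝒢`, the joint class, and the actions for which
the `Φ (u l)`, `u ∈ 𝒰`, are commuting affine bijections of a compact Hausdorff abelian group. Both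
classes are closed under Kolmogorov extensions, factors, inverse limits and mixtures. -/
inductive Tower (𝒰 : Set (Fin k → G)) (𝒥 𝒢 : Sys G → Prop) : Bool → Sys G → Prop
  | joint (𝕏 : Sys G) : 𝒥 𝕏 → Tower 𝒰 𝒥 𝒢 true 𝕏
  | plain (𝕏 : Sys G) : 𝒢 𝕏 → Tower 𝒰 𝒥 𝒢 false 𝕏
  | forget (𝕏 : Sys G) : Tower 𝒰 𝒥 𝒢 true 𝕏 → Tower 𝒰 𝒥 𝒢 false 𝕏
  | point : Tower 𝒰 𝒥 𝒢 true Sys.point
  | gaussian (𝕏 : Sys G) : IsGaussAct 𝕏.μ 𝕏.Φ → Tower 𝒰 𝒥 𝒢 true 𝕏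
  | discrete (𝔻 𝕏 : Sys G) : IsDiscAct 𝔻.μ 𝔻.Φ → Tower 𝒰 𝒥 𝒢 true 𝕏 →
      Tower 𝒰 𝒥 𝒢 true (𝔻.prod 𝕏)
  | poisson (𝕏 𝕐 : Sys G) {W : Type} [MeasurableSpace W] [Nonempty W] (κ : Measure W) [SFinite κ]
      (Θ : G →* Equiv.Perm W) : IsPoissonAction κ Θ 𝕐.μ 𝕐.Φ → SummableOverlaps 𝒰 κ Θ →
      Tower 𝒰 𝒥 𝒢 true 𝕏 → Tower 𝒰 𝒥 𝒢 true (𝕏.prod 𝕐)
  | affine {X : Type} [CommGroup X] [TopologicalSpace X] [IsTopologicalGroup X] [CompactSpace X]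
      [T2Space X] [MeasurableSpace X] [BorelSpace X] (μ : Measure X) [μ.IsHaarMeasure]
      [IsProbabilityMeasure μ] (Φ : G →* Equiv.Perm X) (mp : ∀ g, MeasurePreserving (Φ g) μ μ) :
      (∀ u ∈ 𝒰, ∀ l, ∃ (α : X →ₜ* X) (c : X), ∀ x, Φ (u l) x = α x * c) →
      (∀ u ∈ 𝒰, ∀ v ∈ 𝒰, ∀ l l', Commute (Φ (u l)) (Φ (v l'))) →
      Tower 𝒰 𝒥 𝒢 false ⟨X, μ, Φ, mp⟩
  | kolmogorov (b : Bool) (𝕏 𝕐 : Sys G) (π : 𝕏.X → 𝕐.X) (𝒜 : MeasurableSpace 𝕏.X) (ℓ : G → ℝ) :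
      IsKolmogorov 𝕏 𝕐 π 𝒜 ℓ → Separates ℓ 𝒰 → Tower 𝒰 𝒥 𝒢 b 𝕐 → Tower 𝒰 𝒥 𝒢 b 𝕏
  | factor (b : Bool) (𝕏 𝕐 : Sys G) (π : 𝕏.X → 𝕐.X) : IsFactorMap 𝕏 𝕐 π →
      Tower 𝒰 𝒥 𝒢 b 𝕏 → Tower 𝒰 𝒥 𝒢 b 𝕐
  | limit (b : Bool) (𝕏 : Sys G) (𝕐 : ℕ → Sys G) (π : ∀ i, 𝕏.X → (𝕐 i).X) :
      (∀ i, IsFactorMap 𝕏 (𝕐 i) (π i)) →
      (∀ i, (𝕐 i).ms.comap (π i) ≤ (𝕐 (i + 1)).ms.comap (π (i + 1))) →
      (∀ B, MeasurableSet B → ∀ ε : ℝ, 0 < ε → ∃ (i : ℕ) (D : Set (𝕐 i).X),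
        MeasurableSet D ∧ 𝕏.μ.real (B ∆ (π i ⁻¹' D)) ≤ ε) →
      (∀ i, Tower 𝒰 𝒥 𝒢 b (𝕐 i)) → Tower 𝒰 𝒥 𝒢 b 𝕏
  | mixture (b : Bool) (𝕏 : Sys G) {Ω : Type} [MeasurableSpace Ω] (Q : Measure Ω)
      (κ : Kernel Ω 𝕏.X) [IsMarkovKernel κ] (N : Set Ω)
      (mp : ∀ ω g, MeasurePreserving (𝕏.Φ g) (κ ω) (κ ω)) :
      𝕏.μ = Q.bind κ → Q N = 0 → (∀ ω, ω ∉ N → Tower 𝒰 𝒥 𝒢 b ⟨𝕏.X, κ ω, 𝕏.Φ, mp ω⟩) →
      Tower 𝒰 𝒥 𝒢 b 𝕏

open Run7.h694.BT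

theorem tf_tower {𝒰 : Set (Fin k → G)} {𝒥 𝒢 : Sys G → Prop}
    (h𝒥 : ∀ 𝕏, 𝒥 𝕏 → ConvergesJointly 𝒰 𝕏) (h𝒢 : ∀ 𝕏, 𝒢 𝕏 → Converges 𝒰 𝕏) {b : Bool}
    {𝕏 : Sys G} (h : Tower 𝒰 𝒥 𝒢 b 𝕏) : TF b 𝒰 𝕏.μ 𝕏.Φ := by
  induction h with
  | joint 𝕏 h =>
    refine TF.of_final fun m u hu f hf Ω _ P _ V hV g hg => ?_
    have h1 := h𝒥 𝕏 h m u (fun _ => 1) hu f hf Ω P V hV g hg
    simp only [one_mul] at h1
    exact h1
  | plain 𝕏 h =>
    refine TF.of_final_plain fun m u hu f hf => ?_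
    have h1 := h𝒢 𝕏 h m u (fun _ => 1) hu f hf
    simp only [one_mul] at h1
    exact h1
  | forget 𝕏 _ ih => exact ih.forget
  | point => exact TF.of_JC fun r v _ _ => JC_point _
  | gaussian 𝕏 h => exact TF.gauss h
  | discrete 𝔻 𝕏 h _ ih => exact ih.disc h 𝕏.mp
  | poisson 𝕏 𝕐 κ Θ h hs _ ih =>
    obtain ⟨ℛ, h1, h2, h3⟩ := hs
    exact ih.poisson 𝕏.mp h h1 h2 h3
  | affine μ Φ mp h1 h2 => exact TF.affine h1 h2
  | kolmogorov b 𝕏 𝕐 π 𝒜 ℓ hK hs _ ih =>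
    intro Z mZ P hP σ hσ f hf hfb hb
    obtain ⟨C, hC⟩ := hfb
    exact CF.kolmogorov (𝒜 := 𝒜) (mX := 𝕏.ms) hK.mp hK.equi
      (hK := ⟨𝕏.mp, ⟨hK.hom, hK.le, hK.mono⟩, ⟨hK.base, fun g => by
        refine Measurable.of_comap_le ?_
        rw [MeasurableSpace.comap_comp]
        have e : π ∘ (𝕏.Φ g : 𝕏.X → 𝕏.X) = (𝕐.Φ g : 𝕐.X → 𝕐.X) ∘ π := funext (hK.equi g)
        rw [e, ← MeasurableSpace.comap_comp]
        exact MeasurableSpace.comap_mono (𝕐.mp g).measurable.comap_le⟩, hK.gen, fun B hB => by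
        obtain ⟨D, hD, e⟩ := hK.tail B hB
        exact ⟨π ⁻¹' D, ⟨D, hD, rfl⟩, e⟩⟩) hs.1 hs.2 hσ hf hC (ih Z mZ P hP σ hσ f hf ⟨C, hC⟩ hb)
  | factor b 𝕏 𝕐 π hπ _ ih =>
    intro Z mZ P hP σ hσ f hf hfb hb
    exact CF.factor hπ.mp 𝕐.mp hπ.equi hσ hf (ih Z mZ P hP σ hσ f hf hfb hb)
  | limit b 𝕏 𝕐 π hπ hmono hgen _ ih =>
    intro Z mZ P hP σ hσ f hf hfb hb
    obtain ⟨C, hC⟩ := hfb
    exact CF.limit 𝕏.mp (fun i => (hπ i).mp) (fun i => (hπ i).equi) hmono hgen hC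
      fun i => ih i Z mZ P hP σ hσ f hf ⟨C, hC⟩ hb
  | mixture b 𝕏 Q κ N mp hμ hN _ ih =>
    intro Z mZ P hP σ hσ f hf hfb hb
    exact CF.mixture hμ (fun g => (𝕏.mp g).measurable) hN hσ hf
      fun ω hω => ih ω hω Z mZ P hP σ hσ f hf hfb hb

/-- **Towers of extensions: unrestricted box averages.** Let `G` be a group, `𝒰` a set of `k`-tuples of
elements of `G`, `𝒥` a class of actions of `G` with joint convergence and `𝒢` a class of actions with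
convergence along the sequences `w_j u_{j1}^{n_1} ⋯ u_{jk}^{n_k}`, `u_j ∈ 𝒰`, `w_j ∈ G` (for instance both
empty). Then convergence holds for every action of `Tower 𝒰 𝒥 𝒢 b`, and joint convergence if
`b = true`: the box averages of products of functions in `L^∞` converge almost
everywhere, without restriction on the sides, for every action which is obtained from these classes, from
Gaussian actions, from actions with discrete spectrum and from commuting affine actions on compact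
abelian groups by iterating, in any order, the operations of the two classes (products with actions with
discrete spectrum, products with Poisson suspensions, Kolmogorov extensions, factors, inverse limits,
mixtures). -/
theorem result {G : Type} [Group G] {k : ℕ} (𝒰 : Set (Fin k → G)) (𝒥 𝒢 : Sys G → Prop)
    (h𝒥 : ∀ 𝕏, 𝒥 𝕏 → ConvergesJointly 𝒰 𝕏) (h𝒢 : ∀ 𝕏, 𝒢 𝕏 → Converges 𝒰 𝕏) (b : Bool)
    (𝕏 : Sys G) (h : Tower 𝒰 𝒥 𝒢 b 𝕏) :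
    Converges 𝒰 𝕏 ∧ (b = true → ConvergesJointly 𝒰 𝕏) := by
  refine ⟨?_, ?_⟩
  · intro m u w hu f hf
    exact (tf_tower h𝒥 h𝒢 h).final_plain 𝕏.mp hu w hf
  · rintro rfl m u w hu f hf Ω _ P _ V hV g hg
    exact (tf_tower h𝒥 h𝒢 h).final 𝕏.mp hu w hf (Or.inl rfl) hV hg

end Pool.Agent.Results.MP_f720ae_an.TowersOfBoxes
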